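import Pool.Agent.Zenkov.Derived

/-!
# Conjugates of metabelian subgroups with trivial intersection

Let `G` be a finite group with trivial solvable radical and `S` a subgroup of derived length at most
`l`. Then some `2 ^ l` conjugates of `S` have trivial intersection. In particular four (hence five)
conjugates suffice for every metabelian subgroup `S`. The proof does not use the classification of
finite simple groups.
-/

namespace Pool.Agent.Results.MP_f5117d_al.Metabelian

/-- In a finite group `G` with trivial solvable radical, for every subgroup `S` with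
`derivedSeries S l = ⊥` there are `2 ^ l` conjugates of `S` with trivial intersection; and if
`l ≤ 2` (that is, `S` is metabelian), then there are five such conjugates. -/
theorem result (G : Type) [Group G] [Finite G]
    (hG : ∀ N : Subgroup G, N.Normal → Group.IsSolvable N → N = ⊥)
    (S : Subgroup G) (l : ℕ) (hS : derivedSeries S l = ⊥) :
    (∃ g : Fin (2 ^ l) → G, (⨅ i, S.map (MulAut.conj (g i)).toMonoidHom) = ⊥) ∧
      (l ≤ 2 → ∃ g : Fin 5 → G, (⨅ i, S.map (MulAut.conj (g i)).toMonoidHom) = ⊥) := by
  have key : ∀ (n : ℕ), 2 ^ l ≤ n →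
      ∃ g : Fin n → G, (⨅ i, S.map (MulAut.conj (g i)).toMonoidHom) = ⊥ := by
    intro n hn
    obtain ⟨L, hL1, hL2⟩ := Zenkov.exists_list hG l S hS
    refine ⟨fun i => L.getD i 1, ?_⟩
    rw [eq_bot_iff]
    intro y hy
    rw [Subgroup.mem_bot]
    refine hL2 y fun g hg => ?_
    obtain ⟨i, hi, rfl⟩ := List.mem_iff_getElem.1 hg
    have h1 := (Subgroup.mem_iInf.1 hy) ⟨i, by omega⟩
    have h2 : L.getD i 1 = L[i] := by simp [hi]
    have h3 := Zenkov.mem_cj.1 h1
    simp only [h2] at h3
    exact h3
  refine ⟨key _ le_rfl, fun hl => key 5 ?_⟩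
  calc 2 ^ l ≤ 2 ^ 2 := Nat.pow_le_pow_right (by norm_num) hl
    _ ≤ 5 := by norm_num

end Pool.Agent.Results.MP_f5117d_al.Metabelian
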